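import Pool.Agent.V1166.Lax.Example

/-!
# MP_f85f12_al — a slice of a lax stability condition without the Jordan–Hölder property

The category is the bounded derived category of finite dimensional representations (over `ℚ`)
of the quiver `left ⟶ one ⟵ right` of type `A₃`, `v` is the dimension vector, the central charge
is `i` times the dimension at `one`, and the slicing is the one with
`P (1/2)` the representations whose two maps are injective and `P 1` the representations that
vanish at `one`. The definitions are in `Pool.Agent.V1166.Lax.Defs`.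
-/

namespace Pool.Agent.Results.MP_f85f12_al.JordanHolderFails

open CategoryTheory Limits Pretriangulated TensorProduct Pool.Agent.V1166.Lax

/-- The dimension of a finite dimensional vector space, as an additive function. -/
noncomputable def dimQ : AdditiveFun (FGModuleCat.{0} ℚ) ℤ where
  r X := Module.finrank ℚ X
  add S hS := by
    have h := hS.map_of_exact (forget₂ (FGModuleCat.{0} ℚ) (ModuleCat.{0} ℚ))
    have f1 : Module.Finite ℚ (S.map (forget₂ (FGModuleCat.{0} ℚ) (ModuleCat.{0} ℚ))).X₁ :=
      S.X₁.property
    have f3 : Module.Finite ℚ (S.map (forget₂ (FGModuleCat.{0} ℚ) (ModuleCat.{0} ℚ))).X₃ :=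
      S.X₃.property
    have h1 := ModuleCat.free_shortExact_finrank_add h rfl rfl
    exact_mod_cast h1

lemma dimQ_nonneg (X : FGModuleCat.{0} ℚ) : 0 ≤ dimQ.r X := Int.natCast_nonneg _

lemma dimQ_zero (X : FGModuleCat.{0} ℚ) (h : dimQ.r X = 0) : IsZero X := by
  have h0 : Module.finrank ℚ X = 0 := Int.natCast_eq_zero.1 h
  have h1 : Subsingleton X := Module.finrank_zero_iff.1 h0
  rw [IsZero.iff_id_eq_zero]
  ext x
  exact Subsingleton.elim _ _

/-- There are a triangulated category `C`, a free abelian group `Λ` of finite rank with a norm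
on `Λ ⊗ ℝ`, an additive map `v` (i.e. a homomorphism from the Grothendieck group of `C` to
`Λ`), a lax stability condition `σ` on `C` and a phase `φ` such that the slice `P φ` does not
have the Jordan–Hölder property; moreover all nonzero objects of this slice are massive. -/
theorem result : ∃ (C : Type 1) (_ : Category.{1} C) (_ : Preadditive C) (_ : HasZeroObject C)
    (_ : HasShift C ℤ) (_ : ∀ n : ℤ, (shiftFunctor C n).Additive) (_ : Pretriangulated C)
    (_ : IsTriangulated C) (Λ : Type) (_ : AddCommGroup Λ) (_ : Module.Free ℤ Λ)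
    (_ : Module.Finite ℤ Λ) (N : Seminorm ℝ (ℝ ⊗[ℤ] Λ)) (_ : ∀ x, N x = 0 → x = 0)
    (v : C → Λ) (_ : ∀ T ∈ distTriang C, v T.obj₂ = v T.obj₁ + v T.obj₃)
    (σ : LaxStabilityCondition C Λ N v) (φ : ℝ),
    (∀ X : C, σ.P φ X → ¬ IsZero X → 0 < ‖σ.Z (v X)‖) ∧
      ¬ JordanHolder (σ.P φ).FullSubcategory := by
  let _ := HasDerivedCategory.standard (Rep (FGModuleCat.{0} ℚ))
  refine ⟨DerivedCategory.Bounded (Rep (FGModuleCat.{0} ℚ)), inferInstance, inferInstance,
    inferInstance, inferInstance, inferInstance, inferInstance, inferInstance, Lat, inferInstance,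
    inferInstance, inferInstance, supNorm, supNorm_eq_zero, cl dimQ, cl_add dimQ,
    laxStab dimQ dimQ_nonneg, 1 / 2, massive dimQ dimQ_nonneg dimQ_zero,
    not_JH dimQ dimQ_nonneg dimQ_zero (FGModuleCat.of ℚ ℚ) ?_⟩
  change ((Module.finrank ℚ ℚ : ℕ) : ℤ) = 1
  rw [Module.finrank_self]
  rfl

end Pool.Agent.Results.MP_f85f12_al.JordanHolderFails
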